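import Pool.Agent.Q57.PL.LogRank

/-!
# All degrees at once
-/

set_option autoImplicit false

open Module TensorProduct

namespace Pool.Agent.Q57.PL

open Pool.Agent.Y163.MW Pool.Agent.Y163.MW.Coh Pool.Agent.Y143 Pool.Agent.Y163.MX Pool.Agent.Q57.WM
  Pool.Agent.Q173.OG

universe u v w

lemma gz_abs (k : ℕ) (c : ℤ) : gz k c = max (2 * (|c| - k) - 1) 0 := by
  rcases le_total 0 c with h | h
  · rw [abs_of_nonneg h]
    unfold gz
    rw [tz_zero (k := k) (x := -c) (by omega), add_zero]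
    rfl
  · rw [abs_of_nonpos h]
    unfold gz
    rw [tz_zero (k := k) (x := c) (by omega), zero_add]
    rfl

section

variable {Ω : Type w} [Field Ω]

lemma rankTail_bot {R : Coh.{v, w} Ω} {j : ℕ} (h : R.gr j = ⊥) (k : ℕ) : rankTail R j k = 0 := by
  unfold rankTail
  rw [← finsum_zero (α := ℕ)]
  refine finsum_congr fun r => ?_
  rw [h, Submodule.map_bot, finrank_bot]
  simp

lemma symTail_bot [CharZero Ω] {R : Coh.{v, w} Ω} {q : ℕ} {j : ℕ} (h : R.gr j = ⊥) (k : ℕ) :
    symTail R q j k = 0 := by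
  unfold symTail
  rw [← finsum_zero (α := ℤ)]
  refine finsum_congr fun c => ?_
  have : R.exc q j c = ⊥ := by
    rw [eq_bot_iff, ← h]
    exact exc_le j c
  rw [this, finrank_bot]
  simp

end

variable {Ω : Type w} [Field Ω] [CharZero Ω] [IsAlgClosed Ω] {R : Coh.{v, w} Ω} {q : ℕ}

/-- All degrees at once. -/
theorem tail_all (hq : 1 < q) (hR : IsPre R q) (k : ℕ) :
    (2 * ∑ᶠ j : ℕ, rankTail R j k = ∑ᶠ j : ℕ, symTail R q j k) ↔ ∀ j, WMAbove R q j k := by
  classical
  have := hR.finite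
  have hfin : {j : ℕ | R.gr j ≠ ⊥}.Finite :=
    WellFoundedGT.finite_ne_bot_of_iSupIndep hR.isInternal.submodule_iSupIndep
  set S := hfin.toFinset with hS
  have hS' : ∀ j, j ∉ S → R.gr j = ⊥ := by
    intro j hj
    by_contra h
    exact hj (by rw [hS, Set.Finite.mem_toFinset]; exact h)
  have e1 : ∑ᶠ j : ℕ, rankTail R j k = ∑ j ∈ S, rankTail R j k := by
    refine finsum_eq_sum_of_support_subset _ fun j hj => ?_
    by_contra h
    exact hj (rankTail_bot (hS' j h) k)
  have e2 : ∑ᶠ j : ℕ, symTail R q j k = ∑ j ∈ S, symTail R q j k := by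
    refine finsum_eq_sum_of_support_subset _ fun j hj => ?_
    by_contra h
    exact hj (symTail_bot (hS' j h) k)
  rw [e1, e2, Finset.mul_sum, Finset.sum_eq_sum_iff_of_le
    (fun j _ => (tail_pre hq hR j k).1)]
  constructor
  · intro h j
    rw [← (tail_pre hq hR j k).2]
    by_cases hj : j ∈ S
    · exact h j hj
    · rw [rankTail_bot (hS' j hj) k, symTail_bot (hS' j hj) k, mul_zero]
  · intro h j _
    exact (tail_pre hq hR j k).2.2 (h j)

end Pool.Agent.Q57.PL
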