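import Pool.Agent.Q173.AL.Main
import Pool.Agent.Q57.PL.RigRank

/-!
# Approximate laws for classes of varieties with Poincare duality
-/

set_option autoImplicit false

open Module TensorProduct

namespace Pool.Agent.Q57.PL.L

universe u v w

open Pool.Agent.Y143 Pool.Agent.Y136.UB Pool.Agent.H914 Pool.Agent.Y163.MW
  Pool.Agent.Y163.MW.Coh Pool.Agent.Q173.OS Pool.Agent.Q173.OG Pool.Agent.Q173.AL

section

variable {Ω : Type w} [Field Ω] [CharZero Ω] [IsAlgClosed Ω] {R : Coh.{v, w} Ω} {q : ℕ}

/-- The total weight decomposition is centred if and only if all `H^m` are mw pure. -/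
theorem centred_tot_iff (hq : 1 < q) (hR : IsPre R q) :
    Centred (R.tot q) R.N ↔ ∀ m, R.MWPure q m := by
  classical
  have hind := hR.isInternal.submodule_iSupIndep
  rw [iSupIndep_iff_finsetSum_eq_zero_imp_eq_zero] at hind
  have hNk : ∀ (k m : ℕ) (c : ℤ), ∀ x ∈ R.exc q m c, (R.N ^ k) x ∈ R.exc q m (c - 2 * k) := by
    intro k m
    induction k with
    | zero => intro c x hx; simpa using hx
    | succ k ih =>
      intro c x hx
      rw [pow_succ', Module.End.mul_apply]
      have := P.N_exc hq hR m _ _ (ih c x hx)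
      rwa [show c - 2 * (k : ℤ) - 2 = c - 2 * ((k + 1 : ℕ) : ℤ) by push_cast; ring] at this
  -- decomposition of the elements of `tot`
  have hdec : ∀ (c : ℤ) (x : R.V), x ∈ R.tot q c → ∃ (f : ℕ →₀ R.V),
      (∀ m, f m ∈ R.exc q m c) ∧ ∀ s : Finset ℕ, f.support ⊆ s → ∑ m ∈ s, f m = x := by
    intro c x hx
    obtain ⟨f, hf, hfx⟩ := (Submodule.mem_iSup_iff_exists_finsupp _ _).1 hx
    refine ⟨f, hf, fun s hs => ?_⟩
    rw [← hfx, Finsupp.sum]
    symm
    refine Finset.sum_subset hs fun i _ hi => ?_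
    exact Finsupp.notMem_support_iff.1 hi
  constructor
  · intro h m
    rw [P.mwPure_iff hq hR]
    intro a
    refine ⟨fun x hx h0 => (h a).1 x (exc_le_tot m _ hx) h0, fun y hy => ?_⟩
    obtain ⟨x, hx, hxy⟩ := (h a).2 y (exc_le_tot m _ hy)
    obtain ⟨f, hf, hfx⟩ := hdec _ x hx
    refine ⟨f m, hf m, ?_⟩
    have h1 : ∑ i ∈ insert m f.support, ((R.N ^ a) (f i) - if i = m then y else 0) = 0 := by
      rw [Finset.sum_sub_distrib, Finset.sum_ite_eq' (insert m f.support) m (fun _ => y),
        if_pos (Finset.mem_insert_self m _), ← map_sum, hfx _ (Finset.subset_insert _ _), hxy,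
        sub_self]
    have h2 := hind (insert m f.support) _ ?_ h1 m (Finset.mem_insert_self m _)
    · rw [if_pos rfl, sub_eq_zero] at h2
      exact h2
    · intro i _
      refine Submodule.sub_mem _ (exc_le i _ (hNk a i _ _ (hf i))) ?_
      split_ifs with hi
      · rw [hi]
        exact exc_le m _ hy
      · exact Submodule.zero_mem _
  · intro h a
    have h' := fun m => (P.mwPure_iff hq hR m).1 (h m) a
    refine ⟨fun x hx h0 => ?_, fun y hy => ?_⟩
    · obtain ⟨f, hf, hfx⟩ := hdec _ x hx
      rw [← hfx f.support (Finset.Subset.refl _), map_sum] at h0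
      rw [← hfx f.support (Finset.Subset.refl _)]
      refine Finset.sum_eq_zero fun i hi => ?_
      exact (h' i).1 _ (hf i) (hind f.support _ (fun i _ => exc_le i _ (hNk a i _ _ (hf i))) h0 i hi)
    · obtain ⟨f, hf, hfx⟩ := hdec _ y hy
      choose g hg hg' using fun i => (h' i).2 (f i) (hf i)
      refine ⟨∑ i ∈ f.support, g i, Submodule.sum_mem _ fun i _ => exc_le_tot i _ (hg i), ?_⟩
      rw [map_sum, ← hfx f.support (Finset.Subset.refl _)]
      exact Finset.sum_congr rfl fun i _ => hg' i


lemma exists_strings (hq : 1 < q) (hR : IsPre R q) :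
    Nonempty (Strings (R.tot q) R.N) := by
  have := hR.finite
  exact Pool.Agent.Y153.MW.stA Ω R.V (R.tot q) R.N (P.isInternal_tot hq hR) (P.N_tot hq hR)

lemma mw_iff (hq : 1 < q) (hR : IsPre R q) (S : Strings (R.tot q) R.N) :
    (∀ m, R.MWPure q m) ↔ ∀ s, S.top s = S.len s := by
  rw [← centred_tot_iff hq hR]
  exact Pool.Agent.Y614.MW.stF Ω R.V (R.tot q) R.N (P.isInternal_tot hq hR) S


/-- The second moment inequality for the whole cohomology. -/
theorem moment_tot (hq : 1 < q) (hR : IsPre R q) :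
    R.totRankMoment ≤ R.totWeightMoment q ∧
      (R.totRankMoment = R.totWeightMoment q ↔ ∀ m, R.MWPure q m) := by
  have := hR.finite
  have h := moment (P.isInternal_tot hq hR) (P.N_tot hq hR)
  rw [centred_tot_iff hq hR, ← rankSum_top] at h
  exact h


lemma totWeight_eq (hq : 1 < q) (hR : IsPre R q) (S : Strings (R.tot q) R.N) :
    R.totWeightMoment q = ∑ p, S.wt p ^ 2 := S.weightMoment (P.indep_tot hq hR)


lemma adp_finrank_tot {I : Type} [Fintype I] {a c : I → ℤ} (hq : 1 < q) (hR : IsPre R q)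
    (H : R.Adp q a c) (r : ℤ) :
    finrank Ω (R.tot q r) = Nat.card {i // c i = r} := by
  obtain ⟨b, e, h, -, hb⟩ := H
  exact finrank_gr (P.indep_tot hq hR) b c hb r

variable {I : Type} [Fintype I] {a c : I → ℤ}

/-- The rank moment in terms of any adapted basis. -/
lemma adp_rank (hq : 1 < q) (hR : IsPre R q) (H : R.Adp q a c)
    {M : ℤ → Submodule Ω R.V} (hM : IsMonodromyFiltrationOn ⊤ R.N M) :
    R.totRankMoment = ∑ i, a i ^ 2 := by
  obtain ⟨S⟩ := exists_strings hq hR
  rw [totRank_eq S, ← finsum_card S.ct (fun r => r ^ 2), ← finsum_card a (fun r => r ^ 2)]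
  refine finsum_congr fun r => ?_
  rw [card_le_sub, card_le_sub, ← adp_fil (adp_strings S) hM, ← adp_fil (adp_strings S) hM,
    ← adp_fil H hM, ← adp_fil H hM]

/-- The weight moment in terms of any adapted basis. -/
lemma adp_weight (hq : 1 < q) (hR : IsPre R q) (H : R.Adp q a c) :
    R.totWeightMoment q = ∑ i, c i ^ 2 := by
  unfold totWeightMoment squareSum
  rw [← finsum_card c (fun r => r ^ 2)]
  exact finsum_congr fun r => by rw [adp_finrank_tot hq hR H]

lemma adp_within (hq : 1 < q) (hR : IsPre R q) (H : R.Adp q a c) {M : ℤ → Submodule Ω R.V}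
    (hM : IsMonodromyFiltrationOn ⊤ R.N M) (L : ℕ) :
    within R q M L = Nat.card {i // |c i - a i| ≤ L} := by
  classical
  obtain ⟨b, e, h, hs, hb⟩ := H
  have h1 := Pool.Agent.Y68.MW.stD Pool.Agent.Y141.MW.stL Ω R.V R.N I b a e h hs M hM
  have h2 : ∀ r s, finrank Ω (M r ⊓ R.tot q s : Submodule Ω R.V) =
      Nat.card {i // a i ≤ r ∧ c i = s} := by
    intro r s
    rw [h1 r, gr_eq_span (P.indep_tot hq hR) b c hb s, span_image_inf, finrank_span_image]
    rfl
  have h3 : ∀ s : ℤ, ∑ r ∈ Finset.Icc (s - L) (s + L),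
      ((Nat.card {i // a i ≤ s ∧ c i = r} : ℤ) - Nat.card {i // a i ≤ s - 1 ∧ c i = r}) =
      1 * (Nat.card {g : {i // |c i - a i| ≤ L} // a g.1 = s} : ℤ) := by
    intro s
    have h4 : ∀ r : ℤ, (Nat.card {i // a i ≤ s ∧ c i = r} : ℤ) -
        Nat.card {i // a i ≤ s - 1 ∧ c i = r} =
          ((Finset.univ.filter fun i => a i = s ∧ c i = r).card : ℤ) := by
      intro r
      have h5 : Nat.card {i // a i ≤ s ∧ c i = r} = Nat.card {i // a i ≤ s - 1 ∧ c i = r} +
          (Finset.univ.filter fun i => a i = s ∧ c i = r).card := by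
        rw [Nat.card_eq_fintype_card, Nat.card_eq_fintype_card,
          Fintype.card_subtype, Fintype.card_subtype,
          ← Finset.card_union_of_disjoint]
        · congr 1
          ext i
          simp only [Finset.mem_filter, Finset.mem_univ, true_and, Finset.mem_union]
          omega
        · rw [Finset.disjoint_filter]
          intro i _ h5 h6
          omega
      rw [h5]
      push_cast
      ring
    have e1 : Nat.card {g : {i // |c i - a i| ≤ L} // a g.1 = s} =
        (Finset.univ.filter fun i => |c i - a i| ≤ L ∧ a i = s).card := by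
      rw [Nat.card_congr (Equiv.subtypeSubtypeEquivSubtypeInter (fun i => |c i - a i| ≤ L)
        (fun i => a i = s)), Nat.card_eq_fintype_card, Fintype.card_subtype]
    rw [e1, Finset.sum_congr rfl fun r _ => h4 r, one_mul, ← Nat.cast_sum,
      ← Finset.card_biUnion]
    · congr 2
      ext i
      simp only [Finset.mem_biUnion, Finset.mem_Icc, Finset.mem_filter, Finset.mem_univ, true_and]
      constructor
      · rintro ⟨r, hr, h5, h6⟩
        rw [abs_le]
        omega
      · rintro ⟨h5, h6⟩
        rw [abs_le] at h5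
        exact ⟨c i, by omega, h6, rfl⟩
    · intro r _ r' _ hrr
      rw [Function.onFun, Finset.disjoint_filter]
      intro i _ h5 h6
      exact hrr (h5.2.symm.trans h6.2)
  unfold within
  rw [finsum_congr (fun s => by
    rw [Finset.sum_congr rfl (fun r _ => by rw [h2, h2]), h3 s]),
    finsum_card (fun g : {i // |c i - a i| ≤ L} => a g.1) (fun _ => 1), Finset.sum_const,
    Nat.card_eq_fintype_card]
  simp

/-- The monodromy filtration of the whole cohomology. -/
lemma exists_mon (hq : 1 < q) (hR : IsPre R q) :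
    ∃ M, IsMonodromyFiltrationOn ⊤ R.N M := by
  obtain ⟨S⟩ := exists_strings hq hR
  refine exists_monodromyFiltrationOn (fun _ _ => Submodule.mem_top)
    ⟨∑ s : S.ι, (S.len s + 1), fun x _ => ?_⟩
  have h : (R.N ^ (∑ s : S.ι, (S.len s + 1))) = 0 := by
    apply S.b.ext
    rintro ⟨s, ⟨i, hi⟩⟩
    rw [Pool.Agent.Y461.MW.pow_b, dif_neg, LinearMap.zero_apply]
    have : S.len s + 1 ≤ ∑ s : S.ι, (S.len s + 1) :=
      Finset.single_le_sum (f := fun s : S.ι => S.len s + 1) (fun _ _ => Nat.zero_le _)
        (Finset.mem_univ s)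
    omega
  rw [h, LinearMap.zero_apply]


end

end Pool.Agent.Q57.PL.L
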