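import Pool.Agent.Q57.PL.LawsMain

/-!
# The second moment in terms of the weight filtration
-/

set_option autoImplicit false

open Module TensorProduct

namespace Pool.Agent.Q57.PL

open Pool.Agent.Y163.MW Pool.Agent.Y163.MW.Coh Pool.Agent.Y143 Pool.Agent.Y163.MX Pool.Agent.Q57.WM
  Pool.Agent.Q173.OG

universe u v w

lemma finrank_biSup {K : Type u} [Field K] {V : Type v} [AddCommGroup V] [Module K V]
    [Module.Finite K V] {ι : Type*} {W : ι → Submodule K V} (h : iSupIndep W) (s : Finset ι) :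
    finrank K (⨆ i ∈ s, W i : Submodule K V) = ∑ i ∈ s, finrank K (W i) := by
  classical
  induction s using Finset.induction_on with
  | empty => simp
  | insert a s ha ih =>
    have h1 : Disjoint (W a) (⨆ i ∈ s, W i) := h.disjoint_biSup (y := (s : Set ι)) (by simpa using ha)
    rw [Finset.iSup_insert, Finset.sum_insert ha, ← ih]
    have h2 := Submodule.finrank_sup_add_finrank_inf_eq (W a) (⨆ i ∈ s, W i)
    rw [disjoint_iff.1 h1, finrank_bot, add_zero] at h2
    exact h2

section

variable {Ω : Type w} [Field Ω] [CharZero Ω] [IsAlgClosed Ω] {R : Coh.{v, w} Ω} {q : ℕ}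

lemma finrank_tot (hq : 1 < q) (hR : IsPre R q) (c : ℤ) :
    (finrank Ω (R.tot q c) : ℤ) = ∑ᶠ j : ℕ, (finrank Ω (R.exc q j c) : ℤ) := by
  classical
  have := hR.finite
  have hfin : {j : ℕ | R.gr j ≠ ⊥}.Finite :=
    WellFoundedGT.finite_ne_bot_of_iSupIndep hR.isInternal.submodule_iSupIndep
  set S := hfin.toFinset with hS
  have hS' : ∀ j, j ∉ S → R.exc q j c = ⊥ := by
    intro j hj
    rw [eq_bot_iff]
    refine (exc_le j c).trans ?_
    by_contra h
    exact hj (by rw [hS, Set.Finite.mem_toFinset]; exact fun h' => h (by rw [h']))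
  have hind : iSupIndep (fun j => R.exc q j c) :=
    (P.indep_exc hq hR).comp (f := fun j : ℕ => (j, c)) (fun a b hab => (Prod.mk.inj hab).1)
  have h1 : R.tot q c = ⨆ j ∈ S, R.exc q j c := by
    apply le_antisymm
    · refine iSup_le fun j => ?_
      by_cases hj : j ∈ S
      · exact le_iSup₂_of_le j hj le_rfl
      · rw [hS' j hj]
        exact bot_le
    · exact iSup₂_le fun j _ => exc_le_tot j c
  rw [h1, finrank_biSup hind S]
  push_cast
  symm
  refine finsum_eq_sum_of_support_subset _ fun j hj => ?_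
  by_contra h
  apply hj
  show (finrank Ω (R.exc q j c) : ℤ) = 0
  rw [hS' j h, finrank_bot]
  rfl

end

section

variable {Ω : Type w} [Field Ω]

/-- The sum of the numbers `(w - j)² dim gr^P_w H^j` over all `j` and `w`, ordered by `c = w - j`. -/
noncomputable def LogCoh.moment (R : LogCoh.{v, w} Ω) : ℤ :=
  ∑ᶠ c : ℤ, c ^ 2 * ∑ᶠ j : ℕ, R.gradedDim j (j + c)

end

variable {Ω : Type w} [Field Ω] [CharZero Ω] [IsAlgClosed Ω] {q : ℕ}

lemma LogCoh.moment_eq {R : LogCoh.{v, w} Ω} (hq : 1 < q) (hR : R.IsKnown q) :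
    R.moment = R.toCoh.totWeightMoment q := by
  refine finsum_congr fun c => ?_
  rw [finrank_tot hq hR.pre]
  congr 1
  exact finsum_congr fun j => R.gradedDim_eq hq hR j c

/-- The cohomology of one member. -/
def coh {C : Type u} {Ω : Type w} [Field Ω] (T : LogTheory.{u, v, w} C Ω) (X : C) :
    LogCoh.{v, w} Ω where
  toCoh := T.H X
  P := T.P X

lemma known_coh {C : Type u} {T : LogTheory.{u, v, w} C Ω} (hT : T.IsKnown q) (X : C) :
    (coh T X).IsKnown q := ⟨hT.known.pre X, hT.weight X⟩

end Pool.Agent.Q57.PL
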