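import Pool.Agent.Q57.PL.Sym

/-!
# The dimensions of the graded pieces of the weight filtration and the ranks of the powers of `N`
-/

set_option autoImplicit false

open Module TensorProduct

namespace Pool.Agent.Q57.PL

open Pool.Agent.Y163.MW Pool.Agent.Y163.MW.Coh Pool.Agent.Y143 Pool.Agent.Y163.MX Pool.Agent.Q57.WM
  Pool.Agent.Q173.OG

universe u v w

/-- A sum over an interval around zero. -/
lemma sum_Icc_split (f : ℤ → ℤ) (B : ℕ) :
    ∑ c ∈ Finset.Icc (-(B : ℤ)) B, f c =
      f 0 + ∑ e ∈ Finset.range B, (f ((e : ℤ) + 1) + f (-((e : ℤ) + 1))) := by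
  induction B with
  | zero => simp
  | succ B ih =>
    have h1 : Finset.Icc (-((B + 1 : ℕ) : ℤ)) ((B + 1 : ℕ) : ℤ) =
        insert (((B + 1 : ℕ) : ℤ)) (insert (-((B + 1 : ℕ) : ℤ)) (Finset.Icc (-(B : ℤ)) B)) := by
      ext x
      simp only [Finset.mem_Icc, Finset.mem_insert]
      push_cast
      omega
    rw [h1, Finset.sum_insert (by simp only [Finset.mem_insert, Finset.mem_Icc]; omega),
      Finset.sum_insert (by simp only [Finset.mem_Icc]; omega), ih, Finset.sum_range_succ]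
    push_cast
    ring

/-- The sum over all integers, for a symmetric weight which vanishes up to `k`. -/
lemma finsum_split (k : ℕ) (d : ℤ → ℕ) (hd : (Function.support d).Finite) :
    ∑ᶠ c : ℤ, gz k c * (d c : ℤ) =
      ∑ᶠ e : ℕ, if k < e then (2 * ((e : ℤ) - k) - 1) * ((d e : ℤ) + (d (-(e : ℤ)) : ℤ)) else 0 := by
  obtain ⟨B, hB⟩ : ∃ B : ℕ, ∀ c : ℤ, d c ≠ 0 → |c| ≤ B := by
    obtain ⟨M, hM⟩ := (hd.image (fun c : ℤ => c.natAbs)).bddAbove
    refine ⟨M, fun c hc => ?_⟩
    have := hM ⟨c, hc, rfl⟩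
    rw [Int.abs_eq_natAbs]
    exact_mod_cast this
  have h1 : ∑ᶠ c : ℤ, gz k c * (d c : ℤ) = ∑ c ∈ Finset.Icc (-(B : ℤ)) B, gz k c * (d c : ℤ) := by
    refine finsum_eq_sum_of_support_subset _ fun c hc => ?_
    rw [Function.mem_support] at hc
    have h2 : d c ≠ 0 := fun h => hc (by rw [h]; simp)
    have h3 := abs_le.1 (hB c h2)
    simp only [Finset.coe_Icc, Set.mem_Icc]
    exact h3
  have h4 : (∑ᶠ e : ℕ, if k < e then (2 * ((e : ℤ) - k) - 1) *
      ((d e : ℤ) + (d (-(e : ℤ)) : ℤ)) else 0) =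
      ∑ e ∈ Finset.range (B + 1), if k < e then (2 * ((e : ℤ) - k) - 1) *
      ((d e : ℤ) + (d (-(e : ℤ)) : ℤ)) else 0 := by
    refine finsum_eq_sum_of_support_subset _ fun e he => ?_
    rw [Function.mem_support] at he
    simp only [Finset.coe_range, Set.mem_Iio]
    by_contra hcon
    push Not at hcon
    apply he
    have h5 : d (e : ℤ) = 0 := by
      by_contra h6
      have := abs_le.1 (hB _ h6)
      omega
    have h7 : d (-(e : ℤ)) = 0 := by
      by_contra h6
      have := abs_le.1 (hB _ h6)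
      omega
    rw [h5, h7]
    simp
  have hgz : ∀ e : ℕ, gz k (e : ℤ) = if k < e then 2 * ((e : ℤ) - k) - 1 else 0 := by
    intro e
    unfold gz
    rw [tz_zero (k := k) (x := -(e : ℤ)) (by omega), add_zero]
    split_ifs with h
    · exact tz_pos (by exact_mod_cast h)
    · exact tz_zero (by push Not at h; exact_mod_cast h)
  rw [h1, h4, sum_Icc_split, Finset.sum_range_succ']
  have h8 : gz k 0 * (d 0 : ℤ) = 0 := by
    have := hgz 0
    simp only [Nat.cast_zero, Nat.not_lt_zero, if_false] at this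
    rw [this, zero_mul]
  rw [h8, zero_add]
  simp only [Nat.not_lt_zero, if_false, add_zero]
  refine Finset.sum_congr rfl fun e _ => ?_
  have h9 := hgz (e + 1)
  have h10 : gz k (-((e : ℤ) + 1)) = gz k ((e : ℤ) + 1) := gz_neg k _
  push_cast at h9 ⊢
  rw [h10, h9]
  split_ifs <;> ring

/-- The `ℓ`-adic log cohomology of a log scheme `X`: `H^j`, the Frobenius `F`, the monodromy
operator `N` and the weight filtrations `P_k H^j`. -/
structure LogCoh (Ω : Type w) [Field Ω] extends Coh.{v, w} Ω where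
  /-- the weight filtration -/
  P : ℕ → ℤ → Submodule Ω V

/-- The known properties: `F` and `N` respect the degrees, `N F = q F N`, the eigenvalues of `F` are
`q`-Weil numbers of integral weights, and `P_k H^j` is the sum of the generalized eigenspaces of `F`
on `H^j` for the Weil numbers of weight at most `k`. Neither Poincare duality nor a Lefschetz theorem
nor projectivity is used. -/
structure LogCoh.IsKnown {Ω : Type w} [Field Ω] [CharZero Ω] (R : LogCoh.{v, w} Ω) (q : ℕ) :
    Prop where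
  pre : IsPre R.toCoh q
  weight : ∀ j k, R.P j k = ⨆ (c : ℤ) (_ : (j : ℤ) + c ≤ k), R.toCoh.exc q j c

section

variable {Ω : Type w} [Field Ω]

/-- The dimension of `gr^P_w H^j`. -/
noncomputable def LogCoh.gradedDim (R : LogCoh.{v, w} Ω) (j : ℕ) (w : ℤ) : ℤ :=
  (finrank Ω (R.P j w) : ℤ) - finrank Ω (R.P j (w - 1))

/-- The sum of the ranks of the powers `N ^ r`, `r > k`, on `H^j`. -/
noncomputable def LogCoh.ranks (R : LogCoh.{v, w} Ω) (j k : ℕ) : ℤ :=
  ∑ᶠ r : ℕ, if k < r then (finrank Ω ((R.gr j).map (R.N ^ r)) : ℤ) else 0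

/-- The sum of the numbers
`(2 (e - k) - 1) (dim gr^P_(j + e) H^j + dim gr^P_(j - e) H^j)` over all `e > k`. -/
noncomputable def LogCoh.weights (R : LogCoh.{v, w} Ω) (j k : ℕ) : ℤ :=
  ∑ᶠ e : ℕ, if k < e then (2 * ((e : ℤ) - k) - 1) *
    (R.gradedDim j (j + e) + R.gradedDim j (j - e)) else 0

/-- Kato's conjecture for `H^j` in the range `e > k`: for all `e > k` the map
`N ^ e : gr^P_(j + e) H^j → gr^P_(j - e) H^j` is an isomorphism. -/
def LogCoh.Kato (R : LogCoh.{v, w} Ω) (j k : ℕ) : Prop :=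
  ∀ e : ℕ, k < e → KatoAt R.P R.N j e

end

section

variable {Ω : Type w} [Field Ω] [CharZero Ω] [IsAlgClosed Ω] {R : LogCoh.{v, w} Ω} {q : ℕ}

lemma LogCoh.P_eq (hR : R.IsKnown q) : R.P = (toW R.toCoh q).Pf := by
  funext j k
  exact hR.weight j k

lemma LogCoh.kato_iff (hq : 1 < q) (hR : R.IsKnown q) (j k : ℕ) :
    R.Kato j k ↔ WMAbove R.toCoh q j k := by
  refine forall_congr' fun e => imp_congr_right fun _ => ?_
  rw [R.P_eq hR]
  exact katoAt_iff (isW_toW hq hR.pre) j e

lemma LogCoh.gradedDim_eq (hq : 1 < q) (hR : R.IsKnown q) (j : ℕ) (c : ℤ) :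
    R.gradedDim j (j + c) = (finrank Ω (R.toCoh.exc q j c) : ℤ) := by
  have hW := isW_toW hq hR.pre
  have := hR.pre.finite
  unfold LogCoh.gradedDim
  rw [R.P_eq hR]
  have h1 : (toW R.toCoh q).Pf j (j + c) =
      (toW R.toCoh q).W j c ⊔ (toW R.toCoh q).Pf j (j + c - 1) := by
    apply le_antisymm
    · intro x hx
      obtain ⟨y, hy, z, hz, rfl⟩ := WCoh.Pf_step hx
      exact Submodule.add_mem_sup hy hz
    · exact sup_le (WCoh.W_le_Pf le_rfl) (WCoh.Pf_mono (by omega))
  have h2 : (toW R.toCoh q).W j c ⊓ (toW R.toCoh q).Pf j (j + c - 1) = ⊥ := by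
    rw [eq_bot_iff]
    intro x hx
    rw [Submodule.mem_bot]
    exact hW.disj (k := j + c - 1) (by omega) (Submodule.mem_inf.1 hx).1 (Submodule.mem_inf.1 hx).2
  have h3 := Submodule.finrank_sup_add_finrank_inf_eq ((toW R.toCoh q).W j c)
    ((toW R.toCoh q).Pf j (j + c - 1))
  rw [h2, finrank_bot, add_zero, ← h1] at h3
  rw [h3]
  push_cast
  rw [add_sub_cancel_right]

lemma LogCoh.weights_eq (hq : 1 < q) (hR : R.IsKnown q) (j k : ℕ) :
    R.weights j k = symTail R.toCoh q j k := by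
  have := hR.pre.finite
  unfold symTail
  rw [finsum_split k (fun c => finrank Ω (R.toCoh.exc q j c))]
  · refine finsum_congr fun e => ?_
    have h1 := R.gradedDim_eq hq hR j e
    have h2 := R.gradedDim_eq hq hR j (-(e : ℤ))
    rw [← sub_eq_add_neg] at h2
    rw [h1, h2]
  · have hi := P.indep_exc_deg hq hR.pre j
    refine (WellFoundedGT.finite_ne_bot_of_iSupIndep hi).subset ?_
    intro c hc h0
    apply hc
    show finrank Ω (R.toCoh.exc q j c) = 0
    rw [h0, finrank_bot]

/-- The ranks of the powers of `N` on `H^j` and the dimensions of the graded pieces. -/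
theorem LogCoh.rank_criterion (hq : 1 < q) (hR : R.IsKnown q) (j k : ℕ) :
    2 * R.ranks j k ≤ R.weights j k ∧ (2 * R.ranks j k = R.weights j k ↔ R.Kato j k) := by
  rw [R.weights_eq hq hR, R.kato_iff hq hR]
  exact tail_pre hq hR.pre j k

lemma LogCoh.degrees (hR : R.IsKnown q) : {j : ℕ | R.gr j ≠ ⊥}.Finite := by
  have := hR.pre.finite
  exact WellFoundedGT.finite_ne_bot_of_iSupIndep hR.pre.isInternal.submodule_iSupIndep

omit [CharZero Ω] [IsAlgClosed Ω] in
lemma LogCoh.ranks_bot {j : ℕ} (h : R.gr j = ⊥) (k : ℕ) : R.ranks j k = 0 := by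
  unfold LogCoh.ranks
  rw [← finsum_zero (α := ℕ)]
  refine finsum_congr fun r => ?_
  rw [h, Submodule.map_bot, finrank_bot]
  simp

lemma LogCoh.weights_bot (hq : 1 < q) (hR : R.IsKnown q) {j : ℕ} (h : R.gr j = ⊥) (k : ℕ) :
    R.weights j k = 0 := by
  rw [R.weights_eq hq hR]
  unfold symTail
  rw [← finsum_zero (α := ℤ)]
  refine finsum_congr fun c => ?_
  have : R.toCoh.exc q j c = ⊥ := by
    rw [eq_bot_iff, ← h]
    exact exc_le j c
  rw [this, finrank_bot]
  simp

/-- All degrees at once. -/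
theorem LogCoh.rank_criterion_all (hq : 1 < q) (hR : R.IsKnown q) (k : ℕ) :
    (2 * ∑ᶠ j : ℕ, R.ranks j k = ∑ᶠ j : ℕ, R.weights j k) ↔ ∀ j, R.Kato j k := by
  classical
  set S := (R.degrees hR).toFinset with hS
  have hS' : ∀ j, j ∉ S → R.gr j = ⊥ := by
    intro j hj
    by_contra h
    exact hj (by rw [hS, Set.Finite.mem_toFinset]; exact h)
  have e1 : ∑ᶠ j : ℕ, R.ranks j k = ∑ j ∈ S, R.ranks j k := by
    refine finsum_eq_sum_of_support_subset _ fun j hj => ?_
    by_contra h
    exact hj (LogCoh.ranks_bot (hS' j h) k)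
  have e2 : ∑ᶠ j : ℕ, R.weights j k = ∑ j ∈ S, R.weights j k := by
    refine finsum_eq_sum_of_support_subset _ fun j hj => ?_
    by_contra h
    exact hj (R.weights_bot hq hR (hS' j h) k)
  rw [e1, e2, Finset.mul_sum, Finset.sum_eq_sum_iff_of_le
    (fun j _ => (R.rank_criterion hq hR j k).1)]
  constructor
  · intro h j
    rw [← (R.rank_criterion hq hR j k).2]
    by_cases hj : j ∈ S
    · exact h j hj
    · rw [LogCoh.ranks_bot (hS' j hj) k, R.weights_bot hq hR (hS' j hj) k, mul_zero]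
  · intro h j _
    exact (R.rank_criterion hq hR j k).2.2 (h j)

end

end Pool.Agent.Q57.PL
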