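import Pool.Agent.Q57.WM.Deg
import Pool.Agent.Q173.OG.Log

/-!
# The ranks of the high powers of `N` and the weights, without duality
-/

set_option autoImplicit false

open Module TensorProduct

namespace Pool.Agent.Q57.PL

open Pool.Agent.Y163.MW Pool.Agent.Y163.MW.Coh Pool.Agent.Y143 Pool.Agent.Y163.MX Pool.Agent.Q57.WM
  Pool.Agent.Q173.OG

universe u v w

section

variable {K : Type u} [Field K] {V : Type v} [AddCommGroup V] [Module K V]
  {gr : ℤ → Submodule K V} {N : Module.End K V}

/-- Twice the difference of the two sums is a sum of nonnegative terms. -/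
lemma diff_sym (S : Strings gr N) (k : ℕ) :
    2 * (∑ p, gz k (S.wt p) - 2 * ∑ p, tz k (S.ct p)) =
      ∑ p : Σ s : S.ι, Fin (S.len s + 1), (gz k (S.ct p + (S.top p.1 - S.len p.1)) +
        gz k (S.ct p - (S.top p.1 - S.len p.1)) - 2 * gz k (S.ct p)) := by
  have h2 : 2 * ∑ p, tz k (S.ct p) = ∑ p, gz k (S.ct p) := by
    unfold gz
    rw [Finset.sum_add_distrib, Fintype.sum_sigma, Fintype.sum_sigma, two_mul]
    congr 1
    refine Finset.sum_congr rfl fun s _ => ?_
    exact string_rev (S.len s) (tz k)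
  have h3 : ∑ p, gz k (S.wt p) = ∑ p : Σ s : S.ι, Fin (S.len s + 1),
      gz k (S.ct p + (S.top p.1 - S.len p.1)) := by
    refine Finset.sum_congr rfl fun p _ => ?_
    congr 1
    unfold Strings.wt Strings.ct
    ring
  have h4 : ∑ p : Σ s : S.ι, Fin (S.len s + 1), gz k (S.ct p + (S.top p.1 - S.len p.1)) =
      ∑ p : Σ s : S.ι, Fin (S.len s + 1), gz k (S.ct p - (S.top p.1 - S.len p.1)) := by
    rw [Fintype.sum_sigma, Fintype.sum_sigma]
    refine Finset.sum_congr rfl fun s _ => ?_
    have := string_rev (S.len s) (fun x => gz k (x + (S.top s - S.len s)))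
    refine this.trans (Finset.sum_congr rfl fun i _ => ?_)
    simp only
    rw [← gz_neg]
    congr 1
    unfold Strings.ct
    ring
  rw [Finset.sum_sub_distrib, Finset.sum_add_distrib, ← h4, ← h3, ← Finset.mul_sum, ← h2]
  ring

lemma sym_le (S : Strings gr N) (k : ℕ) : 2 * ∑ p, tz k (S.ct p) ≤ ∑ p, gz k (S.wt p) := by
  have h := diff_sym S k
  have h0 : 0 ≤ ∑ p : Σ s : S.ι, Fin (S.len s + 1), (gz k (S.ct p + (S.top p.1 - S.len p.1)) +
        gz k (S.ct p - (S.top p.1 - S.len p.1)) - 2 * gz k (S.ct p)) :=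
    Finset.sum_nonneg fun p _ => by
      have := gz_convex k (S.ct p) (S.top p.1 - S.len p.1)
      linarith
  linarith

lemma sym_eq_iff (S : Strings gr N) (k : ℕ) :
    2 * ∑ p, tz k (S.ct p) = ∑ p, gz k (S.wt p) ↔ Dich S k := by
  constructor
  · intro heq s
    have h := diff_sym S k
    rw [heq, sub_self, mul_zero] at h
    have h0 := (Finset.sum_eq_zero_iff_of_nonneg (fun p _ => by
      have := gz_convex k (S.ct p) (S.top p.1 - S.len p.1)
      linarith)).1 h.symm
    rcases Nat.lt_or_ge k (S.len s) with hk | hk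
    · left
      have hi : (S.len s - k) / 2 < S.len s + 1 := by omega
      have h1 := h0 ⟨s, ⟨(S.len s - k) / 2, hi⟩⟩ (Finset.mem_univ _)
      have h2 : S.ct ⟨s, ⟨(S.len s - k) / 2, hi⟩⟩ = k ∨
          S.ct ⟨s, ⟨(S.len s - k) / 2, hi⟩⟩ = k + 1 := by
        unfold Strings.ct
        simp only
        omega
      have h3 := gz_strict k h2 (d := S.top s - S.len s) (by
        simp only at h1
        linarith)
      omega
    · right
      have h1 := h0 ⟨s, ⟨0, by omega⟩⟩ (Finset.mem_univ _)
      have h2 : S.ct ⟨s, ⟨0, by omega⟩⟩ = S.len s := by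
        unfold Strings.ct
        simp
      rw [h2] at h1
      have h3 := gz_small k (x := S.len s) (d := S.top s - S.len s) (by positivity)
        (by exact_mod_cast hk) (by
        simp only at h1
        linarith)
      omega
  · intro h
    have h2 : 2 * ∑ p, tz k (S.ct p) = ∑ p, gz k (S.ct p) := by
      unfold gz
      rw [Finset.sum_add_distrib, Fintype.sum_sigma, Fintype.sum_sigma, two_mul]
      congr 1
      refine Finset.sum_congr rfl fun s _ => ?_
      exact string_rev (S.len s) (tz k)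
    rw [h2]
    refine Finset.sum_congr rfl fun p _ => ?_
    obtain ⟨s, i⟩ := p
    have hi := i.2
    rcases h s with h1 | ⟨h1, h2⟩
    · unfold Strings.ct Strings.wt
      simp only
      rw [h1]
    · unfold Strings.ct Strings.wt gz
      simp only
      have e1 : (0 : ℤ) ≤ (i : ℕ) := by positivity
      rw [tz_zero (by omega), tz_zero (by omega), tz_zero (by omega), tz_zero (by omega)]

/-- The inequality for the ranks of the high powers of `N`; equality means purity above `k`. -/
theorem tail_sym [Module.Finite K V] (hgr : DirectSum.IsInternal gr)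
    (hN : ∀ r, ∀ x ∈ gr r, N x ∈ gr (r - 2)) (k : ℕ) :
    (2 * ∑ᶠ r : ℕ, (if k < r then (finrank K (LinearMap.range (N ^ r)) : ℤ) else 0) ≤
      ∑ᶠ c : ℤ, gz k c * (finrank K (gr c) : ℤ)) ∧
    (2 * ∑ᶠ r : ℕ, (if k < r then (finrank K (LinearMap.range (N ^ r)) : ℤ) else 0) =
      ∑ᶠ c : ℤ, gz k c * (finrank K (gr c) : ℤ) ↔ PureAbove gr N k) := by
  obtain ⟨S⟩ := Pool.Agent.Y153.MW.stA K V gr N hgr hN
  have hi := hgr.submodule_iSupIndep
  rw [rank_tail S k, weight_sum S hi (gz k), pureAbove_iff hgr S k]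
  exact ⟨sym_le S k, sym_eq_iff S k⟩

end

section

variable {Ω : Type w} [Field Ω]

/-- The sum of the numbers `(2 (|c| - k) - 1)^+` over the eigenvalues of `F` on `H^m`, of weight
`m + c`. -/
noncomputable def symTail [CharZero Ω] (R : Coh.{v, w} Ω) (q m k : ℕ) : ℤ :=
  ∑ᶠ c : ℤ, gz k c * (finrank Ω (R.exc q m c) : ℤ)

variable [CharZero Ω] [IsAlgClosed Ω] {R : Coh.{v, w} Ω} {q : ℕ}

/-- The inequality for `H^m`, without duality. -/
theorem tail_pre (hq : 1 < q) (hR : IsPre R q) (m k : ℕ) :
    2 * rankTail R m k ≤ symTail R q m k ∧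
      (2 * rankTail R m k = symTail R q m k ↔ WMAbove R q m k) := by
  have := hR.finite
  have hi := internal_comap (P.indep_exc_deg hq hR m) (P.iSup_exc hR m)
  have h := tail_sym (V := R.gr m) (N := R.N.restrict (hR.N_gr m)) hi
    (fun c x hx => P.N_exc hq hR m c x hx) k
  rw [pureAbove_comap (hR.N_gr m) (exc_le m)] at h
  have e1 : rankTail R m k =
      ∑ᶠ r : ℕ, if k < r then
        (finrank Ω (LinearMap.range ((R.N.restrict (hR.N_gr m)) ^ r)) : ℤ) else 0 := by
    refine finsum_congr fun r => ?_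
    rw [finrank_range_restrict]
  have e2 : symTail R q m k =
      ∑ᶠ c : ℤ, gz k c * (finrank Ω ((R.exc q m c).comap (R.gr m).subtype) : ℤ) := by
    refine finsum_congr fun c => ?_
    rw [finrank_comap (exc_le m c)]
  rw [e1, e2]
  exact h

/-- The conjecture above `0` is mw purity. -/
theorem above_zero (hq : 1 < q) (hR : IsPre R q) (m : ℕ) :
    WMAbove R q m 0 ↔ R.MWPure q m := by
  rw [P.mwPure_iff hq hR]
  constructor
  · intro h a
    rcases Nat.eq_zero_or_pos a with rfl | ha
    · refine ⟨fun x _ h0 => by simpa using h0, fun y hy => ⟨y, by simpa using hy, by simp⟩⟩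
    · exact h a ha
  · intro h a _
    exact h a

end

end Pool.Agent.Q57.PL
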