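import Pool.Agent.Q57.WM.Slope
import Pool.Agent.Q57.PL.Sym

/-!
# The ranks of the powers of `N` and the slopes of the Frobenius
-/

set_option autoImplicit false

open Module TensorProduct

namespace Pool.Agent.Q57.PL

open Pool.Agent.Y163.MW Pool.Agent.Y163.MW.Coh Pool.Agent.Y143 Pool.Agent.Y163.MX Pool.Agent.Q57.WM
  Pool.Agent.Q173.OG Pool.Agent.Y136.UB

universe u v w

section

variable {Ω : Type w} [Field Ω]

/-- An index for the classes of eigenvalues up to powers of `q`. -/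
lemma exists_index (q : ℕ) (hq : (q : Ω) ≠ 0) (A : Finset Ω) :
    ∃ g : Ω → ℤ, (∀ α, g ((q : Ω) ^ (-1 : ℤ) * α) = g α) ∧
      ∀ α ∈ A, ∀ β ∈ A, g α = g β → ∃ j : ℤ, β = (q : Ω) ^ j * α := by
  classical
  let s : Setoid Ω :=
    { r := fun α β => ∃ j : ℤ, β = (q : Ω) ^ j * α
      iseqv := by
        refine ⟨fun α => ⟨0, by simp⟩, ?_, ?_⟩
        · rintro α β ⟨j, rfl⟩
          refine ⟨-j, ?_⟩
          rw [← mul_assoc, ← zpow_add₀ hq]
          simp
        · rintro α β γ ⟨j, rfl⟩ ⟨k, rfl⟩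
          refine ⟨k + j, ?_⟩
          rw [← mul_assoc, ← zpow_add₀ hq] }
  let B : Finset (Quotient s) := A.image (fun α => Quotient.mk s α)
  let e := B.equivFin
  refine ⟨fun α => if h : Quotient.mk s α ∈ B then ((e ⟨_, h⟩ : ℕ) : ℤ) else -1, ?_, ?_⟩
  · intro α
    have h1 : Quotient.mk s ((q : Ω) ^ (-1 : ℤ) * α) = Quotient.mk s α := by
      apply Quotient.sound
      show ∃ j : ℤ, α = (q : Ω) ^ j * ((q : Ω) ^ (-1 : ℤ) * α)
      refine ⟨1, ?_⟩
      rw [← mul_assoc, ← zpow_add₀ hq]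
      simp
    simp only [h1]
  · intro α hα β hβ h
    have h1 : Quotient.mk s α ∈ B := Finset.mem_image_of_mem _ hα
    have h2 : Quotient.mk s β ∈ B := Finset.mem_image_of_mem _ hβ
    simp only [h1, h2, dif_pos] at h
    have h3 : e ⟨_, h1⟩ = e ⟨_, h2⟩ := Fin.ext (by exact_mod_cast h)
    have h4 := congrArg Subtype.val (e.injective h3)
    exact Quotient.exact h4

end

section

variable {Ω : Type w} [Field Ω] [CharZero Ω] {q : ℕ}

/-- A degree function which separates the eigenvalues. -/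
lemma exists_kappa (hq : 1 < q) (A : Finset Ω)
    (hA : ∀ α ∈ A, ∃ w : ℤ, IsWeilNumber q w α) :
    ∃ κ : Ω → ℤ, (∀ α, (∃ w : ℤ, IsWeilNumber q w α) → κ ((q : Ω) ^ (-1 : ℤ) * α) = κ α - 2) ∧
      ∀ α ∈ A, ∀ β ∈ A, κ α = κ β → α = β := by
  have hq0 : (q : Ω) ≠ 0 := Nat.cast_ne_zero.2 (by omega)
  obtain ⟨g, hg1, hg2⟩ := exists_index q hq0 A
  set M : ℤ := 1 + ∑ α ∈ A, 2 * |wtf q α| with hM
  have hb : ∀ α ∈ A, 2 * |wtf q α| ≤ M - 1 := by
    intro α hα
    rw [hM, add_sub_cancel_left]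
    exact Finset.single_le_sum (f := fun α => 2 * |wtf q α|) (fun β _ => by positivity) hα
  refine ⟨fun α => wtf q α + M * g α, ?_, ?_⟩
  · rintro α ⟨w, hw⟩
    simp only
    have h1 := hw.twist (by omega : q ≠ 0) (-1)
    rw [hg1, wtf_eq hq h1, wtf_eq hq hw]
    ring
  · intro α hα β hβ h
    simp only at h
    have h1 := hb α hα
    have h2 := hb β hβ
    have h3 : g α = g β := by
      by_contra hne
      have h4 : M * (g α - g β) = wtf q β - wtf q α := by linarith
      have h5 : |wtf q β - wtf q α| ≤ |wtf q β| + |wtf q α| := abs_sub _ _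
      have h6 : 1 ≤ |g α - g β| := Int.one_le_abs (sub_ne_zero.2 hne)
      have hMpos : 0 < M := by
        have : (0 : ℤ) ≤ ∑ α ∈ A, 2 * |wtf q α| := Finset.sum_nonneg fun β _ => by positivity
        omega
      have h7 : M * |g α - g β| = |wtf q β - wtf q α| := by
        rw [← h4, abs_mul, abs_of_pos hMpos]
      have h8 : M ≤ M * |g α - g β| := le_mul_of_one_le_right hMpos.le h6
      omega
    obtain ⟨j, rfl⟩ := hg2 α hα β hβ h3
    obtain ⟨w, hw⟩ := hA α hα
    have h9 := hw.twist (by omega : q ≠ 0) j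
    rw [h3, wtf_eq hq hw, wtf_eq hq h9] at h
    have : j = 0 := by omega
    rw [this]
    simp

variable {R : Coh.{v, w} Ω}

/-- `N` on the generalized eigenspaces. -/
lemma N_pc (hq : 1 < q) (hR : IsPre R q) (m : ℕ) (α : Ω) :
    ∀ y ∈ R.pc (m, α), R.N y ∈ R.pc (m, (q : Ω) ^ (-1 : ℤ) * α) := by
  intro y hy
  have hq0 : (q : Ω) ≠ 0 := Nat.cast_ne_zero.2 (by omega)
  obtain ⟨h1, h2⟩ := Submodule.mem_inf.1 hy
  refine Submodule.mem_inf.2 ⟨hR.N_gr m y h1, ?_⟩
  have h4 : y ∈ ((q : Ω) ^ (-1 : ℤ) • R.F).maxGenEigenspace ((q : Ω) ^ (-1 : ℤ) * α) := by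
    obtain ⟨k, hk⟩ := mem_gen.1 h2
    refine mem_gen.2 ⟨k, ?_⟩
    have e : (q : Ω) ^ (-1 : ℤ) • R.F - algebraMap Ω (Module.End Ω R.V) ((q : Ω) ^ (-1 : ℤ) * α) =
        (q : Ω) ^ (-1 : ℤ) • (R.F - algebraMap Ω (Module.End Ω R.V) α) := by
      ext z
      simp only [LinearMap.sub_apply, LinearMap.smul_apply, Module.algebraMap_end_apply,
        smul_sub, smul_smul]
    rw [e, smul_pow, LinearMap.smul_apply, hk, smul_zero]
  refine gen_map R.N (fun z => ?_) h4
  rw [LinearMap.smul_apply, map_smul, hR.N_F, smul_smul, zpow_neg_one, inv_mul_cancel₀ hq0,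
    one_smul]

/-- Duality for the multiplicities of the eigenvalues on `H^m`. -/
lemma mult_dual [IsAlgClosed Ω] (hq : 1 < q) (hR : R.IsCoh q) (m : ℕ) (α : Ω) :
    mult R m α = mult R m ((q : Ω) ^ m / α) := by
  have := hR.finite
  have hq0 : (q : Ω) ≠ 0 := Nat.cast_ne_zero.2 (by omega)
  have hqm : (q : Ω) ^ m ≠ 0 := pow_ne_zero _ hq0
  have key : ∀ α : Ω, mult R m α ≤ mult R m ((q : Ω) ^ m / α) := by
    intro α
    rcases eq_or_ne α 0 with rfl | hα0
    · rw [div_zero]
    obtain ⟨B, hB⟩ := hR.dual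
    have hB0 : ∀ x, (∀ y, B x y = 0) → x = 0 := hB.nondeg
    have hB1 : ∀ m m' x y, x ∈ R.gr m → y ∈ R.gr m' → m ≠ m' → B x y = 0 := hB.orth
    have hB2 : ∀ m x y, x ∈ R.gr m → y ∈ R.gr m → B (R.F x) (R.F y) = (q : Ω) ^ m * B x y :=
      hB.frob
    let φ : (R.pc (m, α)) →ₗ[Ω] Module.Dual Ω (R.pc (m, (q : Ω) ^ m / α)) :=
      { toFun := fun x => (B x).comp (R.pc (m, (q : Ω) ^ m / α)).subtype
        map_add' := fun x y => by ext z; simp
        map_smul' := fun a x => by ext z; simp }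
    have hφ : Function.Injective φ := by
      rw [← LinearMap.ker_eq_bot, LinearMap.ker_eq_bot']
      intro x hx
      apply Subtype.ext
      apply hB0
      have h1 : ∀ m' β, ∀ y ∈ R.pc (m', β), B x y = 0 := by
        intro m' β y hy
        obtain ⟨hy1, hy2⟩ := Submodule.mem_inf.1 hy
        obtain ⟨hx1, hx2⟩ := Submodule.mem_inf.1 x.2
        by_cases hm : m' = m
        · subst hm
          by_cases hβ : β = (q : Ω) ^ m' / α
          · subst hβ
            exact DFunLike.congr_fun hx ⟨y, hy⟩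
          · refine gen_orth (hR.F_gr m') (hB2 m') ?_ hx1 hy1 hx2 hy2
            intro h5
            exact hβ ((eq_div_iff hα0).2 (by rw [mul_comm]; exact h5))
        · exact hB1 m m' _ y hx1 hy1 (Ne.symm hm)
      intro y
      have h8 : (⊤ : Submodule Ω R.V) ≤ LinearMap.ker (B x) := by
        rw [← hR.isInternal.submodule_iSup_eq_top]
        refine iSup_le fun m' => ?_
        rw [Coh.gr_eq hR m']
        exact iSup_le fun β y hy => LinearMap.mem_ker.2 (h1 m' β y hy)
      exact LinearMap.mem_ker.1 (h8 (Submodule.mem_top))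
    have := LinearMap.finrank_le_finrank_of_injective hφ
    rw [Subspace.dual_finrank_eq] at this
    exact this
  apply le_antisymm (key α)
  rcases eq_or_ne α 0 with rfl | hα0
  · rw [div_zero]
  · have := key ((q : Ω) ^ m / α)
    rwa [div_div_cancel₀ hqm] at this

lemma pre_of_coh (hR : R.IsCoh q) : IsPre R q :=
  ⟨hR.finite, hR.isInternal, hR.F_gr, hR.N_gr, hR.N_F, hR.weil⟩

/-- The even function `hinge k x + hinge k (-x)`. -/
noncomputable def gh (k : ℕ) (x : ℝ) : ℝ := hinge k x + hinge k (-x)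

omit [Field Ω] [CharZero Ω] in
lemma gh_neg (k : ℕ) (x : ℝ) : gh k (-x) = gh k x := by
  unfold gh
  rw [neg_neg, add_comm]

omit [Field Ω] [CharZero Ω] in
lemma gh_convex (k : ℕ) (x d : ℝ) : 2 * gh k x ≤ gh k (x + d) + gh k (x - d) := by
  unfold gh
  have h1 := hinge_convex k (x + d) (x - d) x (by ring)
  have h2 := hinge_convex k (-(x + d)) (-(x - d)) (-x) (by ring)
  linarith

omit [Field Ω] [CharZero Ω] in
/-- One string. -/
lemma string_le (k l : ℕ) (d : ℝ) :
    ∑ i : Fin (l + 1), gh k ((l : ℝ) - 2 * (i : ℕ)) ≤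
      ∑ i : Fin (l + 1), gh k ((l : ℝ) - 2 * (i : ℕ) + d) := by
  have h1 : ∑ i : Fin (l + 1), gh k ((l : ℝ) - 2 * (i : ℕ) + d) =
      ∑ i : Fin (l + 1), gh k ((l : ℝ) - 2 * (i : ℕ) - d) := by
    rw [← Equiv.sum_comp Fin.revPerm]
    refine Finset.sum_congr rfl fun i _ => ?_
    rw [← gh_neg]
    congr 1
    have hi : ((Fin.rev i : Fin (l + 1)) : ℕ) = l - i := by
      rw [Fin.val_rev]
      omega
    have hi2 : (i : ℕ) ≤ l := by have := i.2; omega
    rw [Fin.revPerm_apply, hi, Nat.cast_sub hi2]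
    ring
  have h2 : 2 * ∑ i : Fin (l + 1), gh k ((l : ℝ) - 2 * (i : ℕ)) ≤
      ∑ i : Fin (l + 1), gh k ((l : ℝ) - 2 * (i : ℕ) + d) +
      ∑ i : Fin (l + 1), gh k ((l : ℝ) - 2 * (i : ℕ) - d) := by
    rw [Finset.mul_sum, ← Finset.sum_add_distrib]
    exact Finset.sum_le_sum fun i _ => gh_convex k _ d
  linarith

/-- Strings of generalized eigenvectors of `F` on `H^m`. -/
theorem exists_eig_strings [IsAlgClosed Ω] (hq : 1 < q) (hR : IsPre R q) (m : ℕ) :
    ∃ (gr : ℤ → Submodule Ω (R.gr m)) (S : Strings gr (R.N.restrict (hR.N_gr m)))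
      (ev : (Σ s : S.ι, Fin (S.len s + 1)) → Ω),
      (∀ β, Nat.card {p // ev p = β} = mult R m β) ∧
      ∀ s (i : Fin (S.len s + 1)), ev ⟨s, i⟩ = (q : Ω) ^ (-(i : ℕ) : ℤ) * ev ⟨s, 0⟩ := by
  classical
  have := hR.finite
  have hq0 : (q : Ω) ≠ 0 := Nat.cast_ne_zero.2 (by omega)
  have hindm : iSupIndep (fun α => R.pc (m, α)) :=
    (P.indep_pc hR).comp (f := fun α : Ω => (m, α)) (fun a b hab => (Prod.mk.inj hab).2)
  have hfin : {α : Ω | R.pc (m, α) ≠ ⊥}.Finite := WellFoundedGT.finite_ne_bot_of_iSupIndep hindm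
  set A := hfin.toFinset with hA
  have hmemA : ∀ α, α ∈ A ↔ R.pc (m, α) ≠ ⊥ := fun α => by rw [hA, Set.Finite.mem_toFinset]; rfl
  have hweil : ∀ α ∈ A, ∃ w : ℤ, IsWeilNumber q w α := by
    intro α hα
    by_contra hcon
    exact (hmemA α).1 hα (P.pc_eq_bot hR hcon)
  obtain ⟨κ, hκ1, hκ2⟩ := exists_kappa hq A hweil
  let G : ℤ → Submodule Ω R.V := fun c => ⨆ (α : Ω) (_ : κ α = c), R.pc (m, α)
  have hGind : iSupIndep G := iSupIndep_fib hindm κ
  have hGsup : ⨆ c, G c = R.gr m := by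
    rw [P.gr_eq hR m]
    apply le_antisymm
    · exact iSup_le fun c => iSup₂_le fun α _ => le_iSup (fun α => R.pc (m, α)) α
    · exact iSup_le fun α => le_iSup_of_le (κ α) (le_iSup₂_of_le α rfl le_rfl)
  have hGle : ∀ c, G c ≤ R.gr m := fun c => hGsup ▸ le_iSup G c
  have hGA : ∀ α ∈ A, G (κ α) = R.pc (m, α) := by
    intro α hα
    apply le_antisymm
    · refine iSup₂_le fun β hβ => ?_
      by_cases hβA : β ∈ A
      · rw [hκ2 β hβA α hα hβ]
      · rw [hmemA, not_not] at hβA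
        rw [hβA]
        exact bot_le
    · exact le_iSup₂_of_le α rfl le_rfl
  have hGbot : ∀ c, (∀ α ∈ A, κ α ≠ c) → G c = ⊥ := by
    intro c hc
    rw [eq_bot_iff]
    refine iSup₂_le fun β hβ => ?_
    by_cases hβA : β ∈ A
    · exact absurd hβ (hc β hβA)
    · rw [hmemA, not_not] at hβA
      rw [hβA]
  have hGN : ∀ c, ∀ x ∈ G c, R.N x ∈ G (c - 2) := by
    intro c x hx
    have h : G c ≤ (G (c - 2)).comap R.N := by
      refine iSup₂_le fun α hα y hy => ?_
      by_cases hw : ∃ w : ℤ, IsWeilNumber q w α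
      · have h1 := N_pc hq hR m α y hy
        have h2 : κ ((q : Ω) ^ (-1 : ℤ) * α) = c - 2 := by rw [hκ1 α hw, hα]
        exact Submodule.mem_iSup_of_mem _ (Submodule.mem_iSup_of_mem h2 h1)
      · rw [P.pc_eq_bot hR hw, Submodule.mem_bot] at hy
        rw [hy]
        exact Submodule.zero_mem _
    exact h hx
  have hint := internal_comap hGind hGsup
  obtain ⟨S⟩ := Pool.Agent.Y153.MW.stA Ω (R.gr m) (fun c => (G c).comap (R.gr m).subtype)
    (R.N.restrict (hR.N_gr m)) hint (fun c x hx => hGN c x hx)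
  -- the eigenvalues
  have hex : ∀ p, ∃ α ∈ A, κ α = S.wt p := by
    intro p
    by_contra hcon
    push Not at hcon
    have h1 := S.mem' p
    rw [Submodule.mem_comap, hGbot _ hcon, Submodule.mem_bot] at h1
    exact S.b.ne_zero p (Subtype.ext h1)
  choose ev hevA hev using hex
  have hmem : ∀ p, ((S.b p : R.gr m) : R.V) ∈ R.pc (m, ev p) := by
    intro p
    have h1 := S.mem' p
    rw [Submodule.mem_comap, ← hev p, hGA _ (hevA p)] at h1
    exact h1
  refine ⟨_, S, ev, ?_, ?_⟩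
  · intro β
    by_cases hβ : β ∈ A
    · have h1 : ∀ p, ev p = β ↔ S.wt p = κ β := by
        intro p
        rw [← hev p]
        exact ⟨fun h => by rw [h], fun h => hκ2 _ (hevA p) _ hβ h⟩
      rw [Nat.card_congr (Equiv.subtypeEquivRight h1)]
      have h2 := finrank_gr hint.submodule_iSupIndep S.b S.wt S.mem' (κ β)
      rw [← h2, finrank_comap (hGle _), hGA β hβ]
      rfl
    · have h1 : IsEmpty {p // ev p = β} := ⟨fun p => hβ (p.2 ▸ hevA p.1)⟩
      rw [Nat.card_of_isEmpty]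
      rw [hmemA, not_not] at hβ
      symm
      show finrank Ω (R.pc (m, β)) = 0
      rw [hβ, finrank_bot]
  · intro s i
    obtain ⟨i, hi⟩ := i
    induction i with
    | zero => simp
    | succ i ih =>
      have h1 := ih (by omega)
      have h2 : ev ⟨s, ⟨i + 1, hi⟩⟩ = (q : Ω) ^ (-1 : ℤ) * ev ⟨s, ⟨i, by omega⟩⟩ := by
        have hb := S.succ s ⟨i, by omega⟩
        have h3 := N_pc hq hR m _ _ (hmem ⟨s, ⟨i, by omega⟩⟩)
        have h4 : R.N ((S.b ⟨s, ⟨i, by omega⟩⟩ : R.gr m) : R.V) =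
            ((S.b ⟨s, ⟨i + 1, hi⟩⟩ : R.gr m) : R.V) := congrArg Subtype.val hb
        rw [h4] at h3
        have h5 : (q : Ω) ^ (-1 : ℤ) * ev ⟨s, ⟨i, by omega⟩⟩ ∈ A := by
          rw [hmemA]
          intro h6
          rw [h6, Submodule.mem_bot] at h3
          exact S.b.ne_zero _ (Subtype.ext h3)
        apply hκ2 _ (hevA _) _ h5
        rw [hκ1 _ (hweil _ (hevA _)), hev, hev]
        unfold Strings.wt
        push_cast
        ring
      rw [h2, h1, ← mul_assoc, ← zpow_add₀ hq0]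
      congr 2
      push_cast
      ring

/-- The sum of `hinge k (2 λ - m) + hinge k (m - 2 λ)` over the slopes `λ`. -/
noncomputable def slopeSym (R : Coh.{v, w} Ω) (val : Ω → ℝ) (m k : ℕ) : ℝ :=
  ∑ᶠ α : Ω, gh k (2 * val α - m) * (mult R m α : ℝ)

/-- The ranks of the powers of `N` and the slopes, without duality. -/
theorem rank_le_slopeSym [IsAlgClosed Ω] (hq : 1 < q) (hR : IsPre R q) {val : Ω → ℝ}
    (hv : IsVal q val) (m k : ℕ) : 2 * (rankTail R m k : ℝ) ≤ slopeSym R val m k := by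
  classical
  have hq0 : (q : Ω) ≠ 0 := Nat.cast_ne_zero.2 (by omega)
  obtain ⟨gr, S, ev, hev, hstr⟩ := exists_eig_strings hq hR m
  have e1 : rankTail R m k = ∑ p, tz k (S.ct p) := by
    rw [← rank_tail S k]
    unfold rankTail
    refine finsum_congr fun r => ?_
    rw [finrank_range_restrict]
  have e2 : slopeSym R val m k = ∑ p, gh k (2 * val (ev p) - m) := by
    unfold slopeSym
    rw [← finsum_fib ev (fun x => gh k (2 * val x - m))]
    exact finsum_congr fun β => by rw [hev]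
  have hne : ∀ p, ev p ≠ 0 := by
    intro p h0
    have h1 : mult R m (ev p) ≠ 0 := by
      rw [← hev]
      have : Nonempty {p' // ev p' = ev p} := ⟨⟨p, rfl⟩⟩
      exact Nat.card_pos.ne'
    apply h1
    rw [h0]
    show finrank Ω (R.pc (m, 0)) = 0
    rw [P.pc_eq_bot hR ?_, finrank_bot]
    rintro ⟨w, hw⟩
    have h2 := hw.2 0 (by
      rw [minpoly.zero]
      simp)
    rw [norm_zero] at h2
    have h3 : (0 : ℝ) < (q : ℝ) ^ ((w : ℝ) / 2) := Real.rpow_pos_of_pos (by positivity) _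
    linarith
  have hval0 : val (1 : Ω) = 0 := by
    have := hv.mul 1 1 one_ne_zero one_ne_zero
    rw [mul_one] at this
    linarith
  have hvalz : ∀ j : ℕ, val ((q : Ω) ^ (-(j : ℤ))) = -(j : ℝ) := by
    intro j
    induction j with
    | zero => simpa using hval0
    | succ j ih =>
      have h1 := hv.mul ((q : Ω) ^ (-((j + 1 : ℕ) : ℤ))) (q : Ω) (zpow_ne_zero _ hq0) hq0
      rw [← zpow_add_one₀ hq0, hv.norm] at h1
      have h2 : (-((j + 1 : ℕ) : ℤ)) + 1 = -(j : ℤ) := by push_cast; ring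
      rw [h2, ih] at h1
      have h3 : (((j + 1 : ℕ)) : ℝ) = (j : ℝ) + 1 := by push_cast; ring
      rw [h3]
      linarith
  have e3 : ∑ p, gh k (2 * val (ev p) - m) = ∑ s, ∑ i : Fin (S.len s + 1),
      gh k ((S.len s : ℝ) - 2 * (i : ℕ) + (2 * val (ev ⟨s, 0⟩) - m - S.len s)) := by
    rw [Fintype.sum_sigma]
    refine Finset.sum_congr rfl fun s _ => Finset.sum_congr rfl fun i _ => ?_
    rw [hstr s i, hv.mul _ _ (zpow_ne_zero _ hq0) (hne _), hvalz]
    congr 1
    ring
  have e4 : ((∑ p, tz k (S.ct p) : ℤ) : ℝ) * 2 = ∑ s, ∑ i : Fin (S.len s + 1),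
      gh k ((S.len s : ℝ) - 2 * (i : ℕ)) := by
    rw [Fintype.sum_sigma]
    push_cast
    rw [Finset.sum_mul]
    refine Finset.sum_congr rfl fun s _ => ?_
    have h1 : ∑ i : Fin (S.len s + 1), gh k ((S.len s : ℝ) - 2 * (i : ℕ)) =
        ∑ i : Fin (S.len s + 1), (tz k ((S.len s : ℤ) - 2 * (i : ℕ)) : ℝ) +
        ∑ i : Fin (S.len s + 1), (tz k (-((S.len s : ℤ) - 2 * (i : ℕ))) : ℝ) := by
      rw [← Finset.sum_add_distrib]
      refine Finset.sum_congr rfl fun i _ => ?_
      unfold gh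
      rw [← hinge_int, ← hinge_int]
      push_cast
      rfl
    have h2 := string_rev (S.len s) (tz k)
    have h3 : ∑ i : Fin (S.len s + 1), (tz k (-((S.len s : ℤ) - 2 * (i : ℕ))) : ℝ) =
        ∑ i : Fin (S.len s + 1), (tz k ((S.len s : ℤ) - 2 * (i : ℕ)) : ℝ) := by
      exact_mod_cast h2.symm
    rw [h1, h3]
    unfold Strings.ct
    ring
  rw [e1, e2, e3, mul_comm, e4]
  exact Finset.sum_le_sum fun s _ => string_le k (S.len s) _

/-- The ranks of the powers of `N` and the slopes. -/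
theorem rank_le_slope [IsAlgClosed Ω] (hq : 1 < q) (hR : R.IsCoh q) {val : Ω → ℝ}
    (hv : IsVal q val) (m k : ℕ) : (rankTail R m k : ℝ) ≤ slopeTail R val m k := by
  classical
  have hq0 : (q : Ω) ≠ 0 := Nat.cast_ne_zero.2 (by omega)
  have hqm : (q : Ω) ^ m ≠ 0 := pow_ne_zero _ hq0
  have h1 := rank_le_slopeSym hq (pre_of_coh hR) hv m k
  have hfin := finite_mult hR m
  have hval0 : val (1 : Ω) = 0 := by
    have := hv.mul 1 1 one_ne_zero one_ne_zero
    rw [mul_one] at this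
    linarith
  have hvalq : ∀ j : ℕ, val ((q : Ω) ^ j) = (j : ℝ) := by
    intro j
    induction j with
    | zero => simpa using hval0
    | succ j ih =>
      rw [pow_succ, hv.mul _ _ (pow_ne_zero _ hq0) hq0, ih, hv.norm]
      push_cast
      ring
  have hinv : Function.Involutive (fun α : Ω => (q : Ω) ^ m / α) := by
    intro α
    rcases eq_or_ne α 0 with rfl | hα
    · simp
    · exact div_div_cancel₀ hqm
  have h2 : ∑ᶠ α : Ω, hinge k (-(2 * val α - m)) * (mult R m α : ℝ) = slopeTail R val m k := by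
    unfold slopeTail
    rw [← finsum_comp_equiv hinv.toPerm]
    refine finsum_congr fun α => ?_
    rw [Function.Involutive.coe_toPerm, ← mult_dual hq hR m α]
    rcases eq_or_ne (mult R m α) 0 with h0 | h0
    · rw [h0]
      simp
    · have hα : α ≠ 0 := by
        rintro rfl
        apply h0
        show finrank Ω (R.pc (m, 0)) = 0
        rw [P.pc_eq_bot (pre_of_coh hR) ?_, finrank_bot]
        rintro ⟨w, hw⟩
        have h2 := hw.2 0 (by
          rw [minpoly.zero]
          simp)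
        rw [norm_zero] at h2
        have h3 : (0 : ℝ) < (q : ℝ) ^ ((w : ℝ) / 2) := Real.rpow_pos_of_pos (by positivity) _
        linarith
      have h3 := hv.mul ((q : Ω) ^ m / α) α (div_ne_zero hqm hα) hα
      rw [div_mul_cancel₀ _ hα, hvalq] at h3
      congr 2
      linarith
  have h3 : slopeSym R val m k = slopeTail R val m k + slopeTail R val m k := by
    have h4 : ∑ᶠ α : Ω, hinge k (2 * val α - m) * (mult R m α : ℝ) +
        ∑ᶠ α : Ω, hinge k (-(2 * val α - m)) * (mult R m α : ℝ) =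
        ∑ᶠ α : Ω, gh k (2 * val α - m) * (mult R m α : ℝ) := by
      rw [← finsum_add_distrib]
      · refine finsum_congr fun α => ?_
        unfold gh
        ring
      · refine hfin.subset fun α hα h0 => hα ?_
        simp [h0]
      · refine hfin.subset fun α hα h0 => hα ?_
        simp [h0]
    unfold slopeSym
    rw [← h4, h2]
    rfl
  rw [h3] at h1
  linarith

end

end Pool.Agent.Q57.PL
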